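import Mathlib

namespace Pool.Agent.Lib.MP_134bf7_pr.Cesaro

open Finset

/-- The sets of size `k` that are mapped onto themselves by `σ`. -/
def fixedSets {α : Type*} [Fintype α] [DecidableEq α] (σ : Equiv.Perm α) (k : ℕ) :
    Finset (Finset α) :=
  Finset.univ.filter fun S => S.card = k ∧ S.image σ = S

/-- The fixed sets of size `k` containing the point `x`. -/
def fixedAt {α : Type*} [Fintype α] [DecidableEq α] (σ : Equiv.Perm α) (k : ℕ) (x : α) :
    Finset (Finset α) :=
  (fixedSets σ k).filter fun S => x ∈ S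

variable {α : Type*} [Fintype α] [DecidableEq α]

lemma sum_card_fixedAt (σ : Equiv.Perm α) (k : ℕ) :
    ∑ x : α, (fixedAt σ k x).card = k * (fixedSets σ k).card := by
  classical
  have h : ∀ x : α, (fixedAt σ k x).card = ∑ S ∈ fixedSets σ k, if x ∈ S then 1 else 0 := by
    intro x
    rw [fixedAt, Finset.card_filter]
  simp_rw [h]
  rw [Finset.sum_comm]
  have h2 : ∀ S ∈ fixedSets σ k, (∑ x : α, if x ∈ S then 1 else 0) = k := by
    intro S hS
    rw [fixedSets, Finset.mem_filter] at hS
    rw [← hS.2.1]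
    simp
  rw [Finset.sum_congr rfl h2]
  simp [mul_comm]

lemma card_fixedAt_le (σ : Equiv.Perm α) (k : ℕ) (x : α) :
    (fixedAt σ k x).card ≤ (fixedSets σ k).card :=
  Finset.card_le_card (Finset.filter_subset _ _)

/-- Pointwise inequality for concave functions vanishing at zero. -/
lemma pointwise (φ : ℝ → ℝ) (h0 : φ 0 = 0) (hφ : ConcaveOn ℝ (Set.Ici 0) φ)
    (σ : Equiv.Perm α) (k : ℕ) :
    (k : ℝ) * φ (fixedSets σ k).card ≤ ∑ x : α, φ (fixedAt σ k x).card := by
  rcases Nat.eq_zero_or_pos (fixedSets σ k).card with hX | hX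
  · have : ∀ x : α, (fixedAt σ k x).card = 0 := fun x => by
      have := card_fixedAt_le σ k x
      omega
    simp [hX, this, h0]
  · set X : ℝ := ((fixedSets σ k).card : ℝ) with hXdef
    have hXpos : 0 < X := by rw [hXdef]; exact_mod_cast hX
    have key : ∀ x : α, ((fixedAt σ k x).card : ℝ) / X * φ X ≤ φ (fixedAt σ k x).card := by
      intro x
      set y : ℝ := ((fixedAt σ k x).card : ℝ) with hy
      have hy0 : 0 ≤ y := by positivity
      have hyX : y ≤ X := by rw [hy, hXdef]; exact_mod_cast card_fixedAt_le σ k x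
      have ht1 : 0 ≤ y / X := by positivity
      have ht2 : 0 ≤ 1 - y / X := by
        rw [sub_nonneg, div_le_one hXpos]; exact hyX
      have := hφ.2 (Set.mem_Ici.2 hXpos.le) (Set.mem_Ici.2 (le_refl (0:ℝ))) ht1 ht2 (by ring)
      simp only [smul_eq_mul, mul_zero, add_zero, h0] at this
      rwa [div_mul_cancel₀ y hXpos.ne'] at this
    have hsum : ∑ x : α, ((fixedAt σ k x).card : ℝ) / X * φ X = (k : ℝ) * φ X := by
      rw [← Finset.sum_mul, ← Finset.sum_div]
      have := sum_card_fixedAt σ k
      have h' : (∑ x : α, ((fixedAt σ k x).card : ℝ)) = (k : ℝ) * X := by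
        rw [hXdef]; exact_mod_cast this
      rw [h', mul_div_assoc, div_self hXpos.ne', mul_one]
    rw [← hsum]
    exact Finset.sum_le_sum fun x _ => key x

/-! ### Relabelling -/

lemma card_fixedSets_congr {β : Type*} [Fintype β] [DecidableEq β] (e : α ≃ β)
    (σ : Equiv.Perm α) (k : ℕ) :
    (fixedSets (e.permCongr σ) k).card = (fixedSets σ k).card := by
  classical
  symm
  apply Finset.card_bij (fun S _ => S.image e)
  · intro S hS
    rw [fixedSets, Finset.mem_filter] at hS ⊢
    refine ⟨Finset.mem_univ _, ?_, ?_⟩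
    · rw [Finset.card_image_of_injective _ e.injective]; exact hS.2.1
    · rw [Finset.image_image]
      have : (⇑(e.permCongr σ) ∘ ⇑e) = ⇑e ∘ ⇑σ := by
        funext x; simp [Equiv.permCongr_apply]
      rw [this, ← Finset.image_image, hS.2.2]
  · intro S _ T _ h
    exact Finset.image_injective e.injective h
  · intro T hT
    rw [fixedSets, Finset.mem_filter] at hT
    refine ⟨T.image e.symm, ?_, ?_⟩
    · rw [fixedSets, Finset.mem_filter]
      refine ⟨Finset.mem_univ _, ?_, ?_⟩
      · rw [Finset.card_image_of_injective _ e.symm.injective]; exact hT.2.1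
      · conv_rhs => rw [← hT.2.2]
        rw [Finset.image_image, Finset.image_image]
        congr 1
        funext x; simp [Equiv.permCongr_apply]
    · rw [Finset.image_image]; simp

lemma card_fixedAt_congr {β : Type*} [Fintype β] [DecidableEq β] (e : α ≃ β)
    (σ : Equiv.Perm α) (k : ℕ) (x : α) :
    (fixedAt (e.permCongr σ) k (e x)).card = (fixedAt σ k x).card := by
  classical
  symm
  apply Finset.card_bij (fun S _ => S.image e)
  · intro S hS
    rw [fixedAt, fixedSets, Finset.mem_filter, Finset.mem_filter] at hS ⊢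
    refine ⟨⟨Finset.mem_univ _, ?_, ?_⟩, ?_⟩
    · rw [Finset.card_image_of_injective _ e.injective]; exact hS.1.2.1
    · rw [Finset.image_image]
      have : (⇑(e.permCongr σ) ∘ ⇑e) = ⇑e ∘ ⇑σ := by
        funext x; simp [Equiv.permCongr_apply]
      rw [this, ← Finset.image_image, hS.1.2.2]
    · exact Finset.mem_image_of_mem _ hS.2
  · intro S _ T _ h
    exact Finset.image_injective e.injective h
  · intro T hT
    rw [fixedAt, fixedSets, Finset.mem_filter, Finset.mem_filter] at hT
    refine ⟨T.image e.symm, ?_, ?_⟩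
    · rw [fixedAt, fixedSets, Finset.mem_filter, Finset.mem_filter]
      refine ⟨⟨Finset.mem_univ _, ?_, ?_⟩, ?_⟩
      · rw [Finset.card_image_of_injective _ e.symm.injective]; exact hT.1.2.1
      · conv_rhs => rw [← hT.1.2.2]
        rw [Finset.image_image, Finset.image_image]
        congr 1
        funext x; simp [Equiv.permCongr_apply]
      · rw [Finset.mem_image]; exact ⟨e x, hT.2, by simp⟩
    · rw [Finset.image_image]; simp

/-! ### Adding a point -/

omit [Fintype α] in
/-- the permutation of `Option α` obtained by inserting `none` before `o` -/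
lemma insertion (o : Option α) (τ : Equiv.Perm α) (S : Finset (Option α)) (hS : none ∈ S) :
    S.image (Equiv.swap none o * τ.optionCongr) = S ↔
      (Finset.eraseNone S).image τ = Finset.eraseNone S ∧ (∀ y, o = some y → some y ∈ S) := by
  classical
  set ρ : Equiv.Perm (Option α) := Equiv.swap none o * τ.optionCongr with hρ
  have hcard : ∀ {β : Type _} [DecidableEq β] (f : Equiv.Perm β) (T : Finset β),
      T.image f = T ↔ ∀ x ∈ T, f x ∈ T := by
    intro β _ f T
    constructor
    · intro h x hx
      rw [← h]; exact Finset.mem_image_of_mem _ hx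
    · intro h
      apply Finset.eq_of_subset_of_card_le
      · intro y hy
        rw [Finset.mem_image] at hy
        obtain ⟨x, hx, rfl⟩ := hy
        exact h x hx
      · rw [Finset.card_image_of_injective _ f.injective]
  rw [hcard, hcard]
  have hnone : ρ none = o := by simp [hρ]
  constructor
  · intro h
    have ho : o ∈ S := by rw [← hnone]; exact h none hS
    refine ⟨?_, ?_⟩
    · intro x hx
      rw [Finset.mem_eraseNone] at hx ⊢
      have h1 := h (some x) hx
      have h2 : ρ (some x) = Equiv.swap none o (some (τ x)) := by simp [hρ]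
      rw [h2] at h1
      by_cases ho' : o = some (τ x)
      · rw [← ho']; exact ho
      · rw [Equiv.swap_apply_of_ne_of_ne (by simp) (Ne.symm ho')] at h1
        exact h1
    · intro y hy; rw [← hy]; exact ho
  · rintro ⟨h1, h2⟩ x hx
    have ho : o ∈ S := by
      cases o with
      | none => exact hS
      | some y => exact h2 y rfl
    cases x with
    | none => rw [hnone]; exact ho
    | some x =>
      have h3 : ρ (some x) = Equiv.swap none o (some (τ x)) := by simp [hρ]
      rw [h3]
      have h4 : some (τ x) ∈ S := Finset.mem_eraseNone.1 (h1 x (Finset.mem_eraseNone.2 hx))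
      by_cases ho' : o = some (τ x)
      · rw [← ho', Equiv.swap_apply_right]; exact hS
      · rw [Equiv.swap_apply_of_ne_of_ne (by simp) (Ne.symm ho')]; exact h4

lemma card_fixedAt_none (τ : Equiv.Perm α) (k : ℕ) :
    (fixedAt (Equiv.swap none none * τ.optionCongr) (k + 1) (none : Option α)).card =
      (fixedSets τ k).card := by
  classical
  apply Finset.card_bij (fun S _ => Finset.eraseNone S)
  · intro S hS
    rw [fixedAt, fixedSets, Finset.mem_filter, Finset.mem_filter] at hS
    rw [fixedSets, Finset.mem_filter]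
    refine ⟨Finset.mem_univ _, ?_, ((insertion none τ S hS.2).1 hS.1.2.2).1⟩
    rw [Finset.card_eraseNone_eq_card_erase, Finset.card_erase_of_mem hS.2, hS.1.2.1]; simp
  · intro S hS T hT h
    rw [fixedAt, Finset.mem_filter] at hS hT
    have h1 : insertNone (Finset.eraseNone S) = S := by
      rw [Finset.insertNone_eraseNone]; exact Finset.insert_eq_of_mem hS.2
    have h2 : insertNone (Finset.eraseNone T) = T := by
      rw [Finset.insertNone_eraseNone]; exact Finset.insert_eq_of_mem hT.2
    rw [← h1, ← h2, h]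
  · intro T hT
    rw [fixedSets, Finset.mem_filter] at hT
    refine ⟨insertNone T, ?_, by simp⟩
    rw [fixedAt, fixedSets, Finset.mem_filter, Finset.mem_filter]
    have hn : (none : Option α) ∈ insertNone T := by simp
    refine ⟨⟨Finset.mem_univ _, ?_, ?_⟩, hn⟩
    · rw [Finset.card_insertNone, hT.2.1]
    · rw [insertion none τ _ hn]
      refine ⟨?_, ?_⟩
      · simpa using hT.2.2
      · intro y hy; cases hy

lemma card_fixedAt_some (τ : Equiv.Perm α) (k : ℕ) (y : α) :
    (fixedAt (Equiv.swap none (some y) * τ.optionCongr) (k + 1) (none : Option α)).card =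
      (fixedAt τ k y).card := by
  classical
  apply Finset.card_bij (fun S _ => Finset.eraseNone S)
  · intro S hS
    rw [fixedAt, fixedSets, Finset.mem_filter, Finset.mem_filter] at hS
    rw [fixedAt, fixedSets, Finset.mem_filter, Finset.mem_filter]
    have h := (insertion (some y) τ S hS.2).1 hS.1.2.2
    refine ⟨⟨Finset.mem_univ _, ?_, h.1⟩, ?_⟩
    · rw [Finset.card_eraseNone_eq_card_erase, Finset.card_erase_of_mem hS.2, hS.1.2.1]; simp
    · rw [Finset.mem_eraseNone]; exact h.2 y rfl
  · intro S hS T hT h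
    rw [fixedAt, Finset.mem_filter] at hS hT
    have h1 : insertNone (Finset.eraseNone S) = S := by
      rw [Finset.insertNone_eraseNone]; exact Finset.insert_eq_of_mem hS.2
    have h2 : insertNone (Finset.eraseNone T) = T := by
      rw [Finset.insertNone_eraseNone]; exact Finset.insert_eq_of_mem hT.2
    rw [← h1, ← h2, h]
  · intro T hT
    rw [fixedAt, fixedSets, Finset.mem_filter, Finset.mem_filter] at hT
    refine ⟨insertNone T, ?_, by simp⟩
    rw [fixedAt, fixedSets, Finset.mem_filter, Finset.mem_filter]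
    have hn : (none : Option α) ∈ insertNone T := by simp
    refine ⟨⟨Finset.mem_univ _, ?_, ?_⟩, hn⟩
    · rw [Finset.card_insertNone, hT.1.2.1]
    · rw [insertion (some y) τ _ hn]
      refine ⟨?_, ?_⟩
      · simpa using hT.1.2.2
      · intro z hz
        have : y = z := by simpa using hz
        subst this
        simpa using hT.2

/-! ### The recursion -/

/-- sum over all permutations -/
def S1 (α : Type*) [Fintype α] [DecidableEq α] (φ : ℝ → ℝ) (k : ℕ) : ℝ :=
  ∑ σ : Equiv.Perm α, φ (fixedSets σ k).card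

/-- sum over all permutations and all points -/
def S2 (α : Type*) [Fintype α] [DecidableEq α] (φ : ℝ → ℝ) (k : ℕ) : ℝ :=
  ∑ σ : Equiv.Perm α, ∑ x : α, φ (fixedAt σ k x).card

lemma S1_congr {β : Type*} [Fintype β] [DecidableEq β] (e : α ≃ β) (φ : ℝ → ℝ) (k : ℕ) :
    S1 β φ k = S1 α φ k := by
  rw [S1, S1, ← Equiv.sum_comp (e.permCongr)]
  exact Finset.sum_congr rfl fun σ _ => by rw [card_fixedSets_congr]

lemma S2_congr {β : Type*} [Fintype β] [DecidableEq β] (e : α ≃ β) (φ : ℝ → ℝ) (k : ℕ) :
    S2 β φ k = S2 α φ k := by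
  rw [S2, S2, ← Equiv.sum_comp (e.permCongr)]
  refine Finset.sum_congr rfl fun σ _ => ?_
  rw [← Equiv.sum_comp e]
  exact Finset.sum_congr rfl fun x _ => by rw [card_fixedAt_congr]

/-- all points contribute equally -/
lemma sum_at_eq (φ : ℝ → ℝ) (k : ℕ) (x y : α) :
    ∑ σ : Equiv.Perm α, φ (fixedAt σ k x).card = ∑ σ : Equiv.Perm α, φ (fixedAt σ k y).card := by
  rw [← Equiv.sum_comp ((Equiv.swap x y).permCongr) (fun σ => φ (fixedAt σ k y).card)]
  refine Finset.sum_congr rfl fun σ _ => ?_
  have := card_fixedAt_congr (Equiv.swap x y) σ k x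
  rw [Equiv.swap_apply_left] at this
  rw [this]

lemma S2_option (φ : ℝ → ℝ) (k : ℕ) :
    S2 (Option α) φ (k + 1) = (Fintype.card α + 1) * (S1 α φ k + S2 α φ k) := by
  rw [S2, Finset.sum_comm]
  have h1 : ∀ x : Option α, ∑ σ : Equiv.Perm (Option α), φ (fixedAt σ (k + 1) x).card =
      ∑ σ : Equiv.Perm (Option α), φ (fixedAt σ (k + 1) (none : Option α)).card :=
    fun x => sum_at_eq φ (k + 1) x none
  rw [Finset.sum_congr rfl fun x _ => h1 x, Finset.sum_const, Finset.card_univ,
    Fintype.card_option, nsmul_eq_mul]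
  push_cast
  congr 1
  rw [← Equiv.sum_comp Equiv.Perm.decomposeOption.symm, Fintype.sum_prod_type, Fintype.sum_option]
  simp only [Equiv.Perm.decomposeOption_symm_apply]
  congr 1
  · rw [S1]
    refine Finset.sum_congr rfl fun τ _ => ?_
    rw [card_fixedAt_none]
  · rw [S2, Finset.sum_comm]
    refine Finset.sum_congr rfl fun y _ => ?_
    refine Finset.sum_congr rfl fun τ _ => ?_
    rw [card_fixedAt_some]

/-- normalised sums -/
noncomputable def A (φ : ℝ → ℝ) (n k : ℕ) : ℝ := S1 (Fin n) φ k / n.factorial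

noncomputable def B (φ : ℝ → ℝ) (n k : ℕ) : ℝ := S2 (Fin n) φ k / n.factorial

lemma B_succ (φ : ℝ → ℝ) (n k : ℕ) : B φ (n + 1) (k + 1) = A φ n k + B φ n k := by
  rw [B, A, B, ← S2_congr (finSuccEquiv n) φ (k + 1), S2_option, Fintype.card_fin,
    Nat.factorial_succ]
  have : ((n.factorial : ℝ)) ≠ 0 := by positivity
  have h2 : ((n : ℝ) + 1) ≠ 0 := by positivity
  push_cast
  field_simp

lemma B_zero (φ : ℝ → ℝ) (h0 : φ 0 = 0) (n : ℕ) : B φ n 0 = 0 := by
  have : ∀ (σ : Equiv.Perm (Fin n)) (x : Fin n), (fixedAt σ 0 x).card = 0 := by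
    intro σ x
    rw [Finset.card_eq_zero, fixedAt, Finset.filter_eq_empty_iff]
    intro S hS
    rw [fixedSets, Finset.mem_filter] at hS
    rw [Finset.card_eq_zero.1 hS.2.1]
    simp
  rw [B, S2]
  simp [this, h0]

lemma B_eq (φ : ℝ → ℝ) (h0 : φ 0 = 0) (k : ℕ) : ∀ n, k ≤ n →
    B φ n k = ∑ i ∈ Finset.range k, A φ (n - (i + 1)) (k - (i + 1)) := by
  induction k with
  | zero => intro n _; simp [B_zero φ h0]
  | succ k ih =>
    intro n hn
    obtain ⟨m, rfl⟩ : ∃ m, n = m + 1 := ⟨n - 1, by omega⟩
    rw [B_succ, ih m (by omega), Finset.sum_range_succ', add_comm]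
    congr 1
    · refine Finset.sum_congr rfl fun i _ => ?_
      congr 1 <;> omega

lemma concave_ineq (φ : ℝ → ℝ) (h0 : φ 0 = 0) (hφ : ConcaveOn ℝ (Set.Ici 0) φ) {n k : ℕ}
    (hk : k ≤ n) :
    (k : ℝ) * A φ n k ≤ ∑ i ∈ Finset.range k, A φ (n - (i + 1)) (k - (i + 1)) := by
  rw [← B_eq φ h0 k n hk, A, B, S1, S2, ← mul_div_assoc, Finset.mul_sum]
  have : (0 : ℝ) < n.factorial := by positivity
  gcongr with σ _
  exact pointwise φ h0 hφ σ k

end Pool.Agent.Lib.MP_134bf7_pr.Cesaro
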