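import Pool.Agent.Lib.MP_134bf7_pr.Winding

namespace Pool.Agent.Lib.MP_134bf7_pr.Winding

open Filter Topology Set

lemma summable_of_Bdd {θ1 θ2 B θ : ℝ} {c : ℤ → ℝ} (h : Bdd θ1 θ2 B c) (h1 : 0 < θ1)
    (h12 : θ1 < θ2) (hB : 0 ≤ B) (hθ1 : θ1 < θ) (hθ2 : θ < θ2) :
    Summable fun w => c w * θ ^ w := by
  have hθ : 0 < θ := h1.trans hθ1
  have h2 : 0 < θ2 := h1.trans h12
  have hs : Summable fun w => B * bd (θ / θ1) (θ / θ2) w :=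
    (summable_bd (by rwa [one_lt_div h1]) (by positivity) (by rwa [div_lt_one h2])).mul_left B
  refine Summable.of_nonneg_of_le (fun w => ?_) (fun w => h.le_bd h1 h12 hB hθ1 hθ2 w) hs
  exact mul_nonneg (h w).1 (by positivity)

lemma limit_hasSum {θ1 θ2 B θ : ℝ} {c : ℕ → ℤ → ℝ} {l : ℤ → ℝ} (h : ∀ j, Bdd θ1 θ2 B (c j))
    (hl : Bdd θ1 θ2 B l) (h1 : 0 < θ1)
    (h12 : θ1 < θ2) (hB : 0 ≤ B) (hθ1 : θ1 < θ) (hθ2 : θ < θ2)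
    (hlim : ∀ w, Tendsto (fun j => c j w) atTop (𝓝 (l w))) (G : ℕ → ℝ) (D : ℝ)
    (hG : ∀ j, HasSum (fun w => c j w * θ ^ w) (G j)) (hD : Tendsto G atTop (𝓝 D)) :
    HasSum (fun w => l w * θ ^ w) D := by
  have hθ : 0 < θ := h1.trans hθ1
  have h2 : 0 < θ2 := h1.trans h12
  have hs : Summable fun w => B * bd (θ / θ1) (θ / θ2) w :=
    (summable_bd (by rwa [one_lt_div h1]) (by positivity) (by rwa [div_lt_one h2])).mul_left B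
  have ht : Tendsto (fun j => ∑' w, c j w * θ ^ w) atTop (𝓝 (∑' w, l w * θ ^ w)) := by
    refine tendsto_tsum_of_dominated_convergence hs (fun w => (hlim w).mul_const _) ?_
    refine Eventually.of_forall fun j w => ?_
    rw [Real.norm_of_nonneg (mul_nonneg (h j w).1 (by positivity))]
    exact (h j).le_bd h1 h12 hB hθ1 hθ2 w
  have he : (fun j => ∑' w, c j w * θ ^ w) = G := funext fun j => (hG j).tsum_eq
  rw [he] at ht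
  have : (∑' w, l w * θ ^ w) = D := tendsto_nhds_unique ht hD
  rw [← this]
  exact (summable_of_Bdd hl h1 h12 hB hθ1 hθ2).hasSum

lemma Bdd_limit {θ1 θ2 B : ℝ} {c : ℕ → ℤ → ℝ} {l : ℤ → ℝ} (h : ∀ j, Bdd θ1 θ2 B (c j))
    (hlim : ∀ w, Tendsto (fun j => c j w) atTop (𝓝 (l w))) : Bdd θ1 θ2 B l := by
  intro w
  refine ⟨ge_of_tendsto' (hlim w) fun j => (h j w).1,
    le_of_tendsto' ((hlim w).mul_const _) fun j => (h j w).2.1,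
    le_of_tendsto' ((hlim w).mul_const _) fun j => (h j w).2.2⟩

lemma core {θ1 θ2 B : ℝ} {c c' : ℕ → ℤ → ℝ} (hc : ∀ j, Bdd θ1 θ2 B (c j))
    (hc' : ∀ j, Bdd θ1 θ2 B (c' j))
    (h1 : 0 < θ1) (h12 : θ1 < θ2) (hB : 0 ≤ B) (δ : ℝ) (hδ : ∀ n : ℤ, δ ≠ n) (Z : Set ℝ)
    (D : ℝ → ℝ) (hD : ∀ θ ∈ Z, D θ ≠ 0) (G G' : ℕ → ℝ → ℝ)
    (hG : ∀ j, ∀ θ ∈ Z, HasSum (fun w => c j w * θ ^ w) (G j θ))
    (hG' : ∀ j, ∀ θ ∈ Z, HasSum (fun w => c' j w * θ ^ w) (G' j θ))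
    (hlim : ∀ θ ∈ Z, Tendsto (fun j => G j θ) atTop (𝓝 (D θ)))
    (hlim' : ∀ θ ∈ Z, Tendsto (fun j => G' j θ) atTop (𝓝 (θ ^ δ * D θ)))
    (θ0 : ℝ) (h01 : θ1 < θ0) (h02 : θ0 < θ2) (hacc : AccPt θ0 (𝓟 Z)) : False := by
  have hK : IsCompact (Set.pi (Set.univ : Set ℤ)
      (fun w => (Set.Icc 0 (B / θ1 ^ w)) ×ˢ (Set.Icc (0 : ℝ) (B / θ1 ^ w)))) :=
    isCompact_univ_pi fun w => isCompact_Icc.prod isCompact_Icc
  have hmem : ∀ j, (fun w => (c j w, c' j w)) ∈ (Set.pi (Set.univ : Set ℤ)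
      (fun w => (Set.Icc 0 (B / θ1 ^ w)) ×ˢ (Set.Icc (0 : ℝ) (B / θ1 ^ w)))) := by
    intro j w _
    have hp : 0 < θ1 ^ w := by positivity
    refine ⟨⟨(hc j w).1, ?_⟩, ⟨(hc' j w).1, ?_⟩⟩
    · rw [le_div_iff₀ hp]; exact (hc j w).2.1
    · rw [le_div_iff₀ hp]; exact (hc' j w).2.1
  obtain ⟨l, _, φ, hφ, hl⟩ := hK.tendsto_subseq hmem
  rw [tendsto_pi_nhds] at hl
  have hl1 : ∀ w, Tendsto (fun j => c (φ j) w) atTop (𝓝 (l w).1) := fun w =>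
    (continuous_fst.tendsto _).comp (hl w)
  have hl2 : ∀ w, Tendsto (fun j => c' (φ j) w) atTop (𝓝 (l w).2) := fun w =>
    (continuous_snd.tendsto _).comp (hl w)
  have hb1 : Bdd θ1 θ2 B (fun w => (l w).1) := Bdd_limit (fun j => hc (φ j)) hl1
  have hb2 : Bdd θ1 θ2 B (fun w => (l w).2) := Bdd_limit (fun j => hc' (φ j)) hl2
  refine no_winding hb1 hb2 h1 h12 hB δ hδ Z D hD ?_ θ0 h01 h02 hacc
  intro θ hθ hθ1 hθ2
  exact ⟨limit_hasSum (fun j => hc (φ j)) hb1 h1 h12 hB hθ1 hθ2 hl1 _ _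
      (fun j => hG (φ j) θ hθ) ((hlim θ hθ).comp hφ.tendsto_atTop),
    limit_hasSum (fun j => hc' (φ j)) hb2 h1 h12 hB hθ1 hθ2 hl2 _ _
      (fun j => hG' (φ j) θ hθ) ((hlim' θ hθ).comp hφ.tendsto_atTop)⟩

end Pool.Agent.Lib.MP_134bf7_pr.Winding
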