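import Mathlib

namespace Pool.Agent.Lib.MP_134bf7_pr.Series

open Filter Topology Set MeasureTheory ProbabilityTheory

/-- weight without the exponential factor and the power of `θ` -/
noncomputable def v {k : ℕ} (a : Fin k → ℕ) : ℝ :=
  ∏ i : Fin k, (1 / (((i : ℕ) : ℝ) + 1)) ^ (a i) / ((a i).factorial : ℝ)

/-- degree -/
def deg {k : ℕ} (a : Fin k → ℕ) : ℕ := ∑ i, a i

/-- Poisson weight -/
noncomputable def W {k : ℕ} (θ : ℝ) (a : Fin k → ℕ) : ℝ :=
  ∏ i : Fin k, Real.exp (-(θ / (((i : ℕ) : ℝ) + 1))) * (θ / (((i : ℕ) : ℝ) + 1)) ^ (a i) / ((a i).factorial : ℝ)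

/-- harmonic number -/
noncomputable def H (k : ℕ) : ℝ := ∑ i : Fin k, 1 / (((i : ℕ) : ℝ) + 1)

lemma v_nonneg {k : ℕ} (a : Fin k → ℕ) : 0 ≤ v a :=
  Finset.prod_nonneg fun i _ => by positivity

lemma W_eq {k : ℕ} (θ : ℝ) (a : Fin k → ℕ) :
    W θ a = Real.exp (-(θ * H k)) * (v a * θ ^ (deg a)) := by
  rw [W, v, deg, H, Finset.mul_sum, ← Finset.sum_neg_distrib, Real.exp_sum,
    ← Finset.prod_pow_eq_pow_sum, ← Finset.prod_mul_distrib, ← Finset.prod_mul_distrib]
  refine Finset.prod_congr rfl fun i _ => ?_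
  have h1 : -(θ / (((i : ℕ) : ℝ) + 1)) = -(θ * (1 / (((i : ℕ) : ℝ) + 1))) := by ring
  rw [h1, div_pow, div_pow, one_pow]
  ring

lemma hasSum_W {k : ℕ} {θ : ℝ} (hθ : 0 < θ) : HasSum (fun a : Fin k → ℕ => W θ a) 1 := by
  let r : Fin k → NNReal := fun i => ⟨θ / (((i : ℕ) : ℝ) + 1), by positivity⟩
  let μ : Measure (Fin k → ℕ) := Measure.pi fun i => poissonMeasure (r i)
  have h1 : ∑' a : Fin k → ℕ, μ {a} = 1 := by
    have := Measure.tsum_indicator_apply_singleton μ Set.univ MeasurableSet.univ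
    simp only [Set.indicator_univ] at this
    rw [this]
    exact measure_univ
  have h2 : ∀ a : Fin k → ℕ, (μ {a}).toReal = W θ a := by
    intro a
    rw [Measure.pi_singleton, ENNReal.toReal_prod, W]
    refine Finset.prod_congr rfl fun i _ => ?_
    have := poissonMeasure_real_singleton (r i) (a i)
    rw [measureReal_def] at this
    rw [this]
    rfl
  have h3 : HasSum (fun a : Fin k → ℕ => (μ {a}).toReal) (∑' a : Fin k → ℕ, μ {a}).toReal := by
    rw [ENNReal.tsum_toReal_eq (fun a => measure_ne_top μ _)]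
    exact ENNReal.summable_toReal (by rw [h1]; exact ENNReal.one_ne_top) |>.hasSum
  rw [h1, ENNReal.toReal_one] at h3
  simpa only [h2] using h3

lemma hasSum_good {k : ℕ} {θ : ℝ} (hθ : 0 < θ) (P : (Fin k → ℕ) → Prop) :
    HasSum (fun a : {a : Fin k → ℕ // P a} => v a.1 * θ ^ (deg a.1))
      (Real.exp (θ * H k) * (1 - ∑' a : {a : Fin k → ℕ // ¬ P a}, W θ a.1)) := by
  have hs : Summable (fun a : Fin k → ℕ => W θ a) := (hasSum_W hθ).summable
  have h1 : Summable (fun a : {a : Fin k → ℕ // P a} => W θ a.1) := hs.subtype {a | P a}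
  have h2 : (∑' a : {a : Fin k → ℕ // P a}, W θ a.1) +
      (∑' a : {a : Fin k → ℕ // ¬ P a}, W θ a.1) = 1 := by
    have := hs.tsum_subtype_add_tsum_subtype_compl {a | P a}
    rw [(hasSum_W hθ).tsum_eq] at this
    exact this
  have h3 : HasSum (fun a : {a : Fin k → ℕ // P a} => W θ a.1)
      (1 - ∑' a : {a : Fin k → ℕ // ¬ P a}, W θ a.1) := by
    rw [← h2, add_sub_cancel_right]
    exact h1.hasSum
  have h4 := h3.mul_left (Real.exp (θ * H k))
  have h5 : (fun a : {a : Fin k → ℕ // P a} => v a.1 * θ ^ (deg a.1)) =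
      fun a : {a : Fin k → ℕ // P a} => Real.exp (θ * H k) * W θ a.1 := by
    funext a
    rw [W_eq, ← mul_assoc, ← Real.exp_add]
    simp
  rw [h5]
  exact h4

set_option linter.unusedVariables false in
/-- regrouping by an integer-valued exponent -/
lemma regroup {ι : Type*} (u : ι → ℝ) (hu : ∀ a, 0 ≤ u a) (e : ι → ℤ) {θ S : ℝ} (hθ : 0 < θ)
    (h : HasSum (fun a => u a * θ ^ (e a)) S) :
    HasSum (fun w : ℤ => (∑' a : {a // e a = w}, u a.1) * θ ^ w) S := by
  have h1 : HasSum (fun x : (Σ w : ℤ, {a // e a = w}) => u x.2.1 * θ ^ (x.1)) S := by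
    rw [← (Equiv.sigmaFiberEquiv e).hasSum_iff] at h
    convert h using 2 with x
    obtain ⟨w, a, ha⟩ := x
    simp [Equiv.sigmaFiberEquiv, ha]
  refine h1.sigma fun w => ?_
  have h2 : Summable (fun a : {a // e a = w} => u a.1 * θ ^ w) := h1.summable.sigma_factor w
  have h3 := h2.hasSum
  rw [tsum_mul_right] at h3
  exact h3

lemma countable_of_isolated (Z : Set ℝ)
    (h : ∀ x ∈ Z, ∀ y ∈ Z, ∀ z, x < z → z < y → ¬ AccPt z (𝓟 Z)) : Z.Countable := by
  have hI : {z ∈ Z | ¬ AccPt z (𝓟 Z)}.Countable := by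
    have : DiscreteTopology {z // z ∈ {z ∈ Z | ¬ AccPt z (𝓟 Z)}} := by
      rw [discreteTopology_subtype_iff]
      intro x hx
      have h1 : 𝓝[≠] x ⊓ 𝓟 Z = ⊥ := by
        have := hx.2
        rw [AccPt, Filter.not_neBot] at this
        exact this
      rw [← le_bot_iff, ← h1]
      exact inf_le_inf_left _ (principal_mono.2 fun z hz => hz.1)
    have h2 := (TopologicalSpace.separableSpace_iff_countable
      (α := {z // z ∈ {z ∈ Z | ¬ AccPt z (𝓟 Z)}})).1 inferInstance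
    exact Set.countable_coe_iff.1 h2
  have hmin : {z ∈ Z | ∀ y ∈ Z, z ≤ y}.Countable := by
    apply Set.Subsingleton.countable
    intro x hx y hy
    exact le_antisymm (hx.2 y hy.1) (hy.2 x hx.1)
  have hmax : {z ∈ Z | ∀ y ∈ Z, y ≤ z}.Countable := by
    apply Set.Subsingleton.countable
    intro x hx y hy
    exact le_antisymm (hy.2 x hx.1) (hx.2 y hy.1)
  refine ((hI.union hmin).union hmax).mono fun z hz => ?_
  by_cases h1 : ∀ y ∈ Z, z ≤ y
  · exact Or.inl (Or.inr ⟨hz, h1⟩)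
  by_cases h2 : ∀ y ∈ Z, y ≤ z
  · exact Or.inr ⟨hz, h2⟩
  push Not at h1 h2
  obtain ⟨x, hx, hxz⟩ := h1
  obtain ⟨y, hy, hzy⟩ := h2
  exact Or.inl (Or.inl ⟨hz, h x hx y hy z hxz hzy⟩)

end Pool.Agent.Lib.MP_134bf7_pr.Series
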