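import Mathlib

namespace Pool.Agent.Lib.MP_134bf7_pr.Winding

open Filter Topology Set

/-- two-sided geometric weights -/
noncomputable def bd (r1 r2 : ℝ) (w : ℤ) : ℝ := if 0 ≤ w then r2 ^ w else r1 ^ w

lemma summable_bd {r1 r2 : ℝ} (h1 : 1 < r1) (h2 : 0 < r2) (h2' : r2 < 1) :
    Summable (bd r1 r2) := by
  rw [summable_int_iff_summable_nat_and_neg]
  constructor
  · have : (fun n : ℕ => bd r1 r2 n) = fun n : ℕ => r2 ^ n := by
      funext n; simp [bd]
    rw [this]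
    exact summable_geometric_of_lt_one h2.le h2'
  · have : (fun n : ℕ => bd r1 r2 (-(n : ℤ))) = fun n : ℕ => (r1⁻¹) ^ n := by
      funext n
      rcases Nat.eq_zero_or_pos n with h | h
      · subst h; simp [bd]
      · have : ¬ (0 : ℤ) ≤ -(n : ℤ) := by omega
        rw [bd, if_neg this, zpow_neg, zpow_natCast, inv_pow]
    rw [this]
    exact summable_geometric_of_lt_one (by positivity) (inv_lt_one_of_one_lt₀ h1)

/-- a coefficient sequence bounded as if its Laurent series converged on `[θ1, θ2]` -/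
def Bdd (θ1 θ2 B : ℝ) (c : ℤ → ℝ) : Prop :=
  ∀ w : ℤ, 0 ≤ c w ∧ c w * θ1 ^ w ≤ B ∧ c w * θ2 ^ w ≤ B

set_option linter.unusedVariables false in
lemma Bdd.le_bd {θ1 θ2 B θ : ℝ} {c : ℤ → ℝ} (h : Bdd θ1 θ2 B c) (h1 : 0 < θ1) (h12 : θ1 < θ2)
    (hB : 0 ≤ B) (hθ1 : θ1 < θ) (hθ2 : θ < θ2) (w : ℤ) :
    c w * θ ^ w ≤ B * bd (θ / θ1) (θ / θ2) w := by
  have hθ : 0 < θ := h1.trans hθ1
  have h2 : 0 < θ2 := h1.trans h12
  rw [bd]
  split_ifs with hw
  · have : c w * θ ^ w = c w * θ2 ^ w * (θ / θ2) ^ w := by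
      rw [div_zpow, mul_assoc, mul_div_cancel₀ _ (zpow_ne_zero _ h2.ne')]
    rw [this]
    exact mul_le_mul_of_nonneg_right (h w).2.2 (by positivity)
  · have : c w * θ ^ w = c w * θ1 ^ w * (θ / θ1) ^ w := by
      rw [div_zpow, mul_assoc, mul_div_cancel₀ _ (zpow_ne_zero _ h1.ne')]
    rw [this]
    exact mul_le_mul_of_nonneg_right (h w).2.1 (by positivity)

/-- the uniform bound on a substrip -/
lemma Bdd.le_bd' {θ1 θ2 B a b θ : ℝ} {c : ℤ → ℝ} (h : Bdd θ1 θ2 B c) (h1 : 0 < θ1)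
    (h12 : θ1 < θ2) (hB : 0 ≤ B) (ha1 : θ1 < a) (hb2 : b < θ2)
    (hθ1 : a < θ) (hθ2 : θ < b) (w : ℤ) :
    c w * θ ^ w ≤ B * bd (a / θ1) (b / θ2) w := by
  have ha : 0 < a := h1.trans ha1
  have hθ : 0 < θ := ha.trans hθ1
  have h2 : 0 < θ2 := h1.trans h12
  refine (h.le_bd h1 h12 hB (ha1.trans hθ1) (hθ2.trans hb2) w).trans ?_
  refine mul_le_mul_of_nonneg_left ?_ hB
  rw [bd, bd]
  split_ifs with hw
  · lift w to ℕ using hw
    rw [zpow_natCast, zpow_natCast]
    gcongr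
  · have hw' : w < 0 := not_le.1 hw
    obtain ⟨n, rfl⟩ : ∃ n : ℕ, w = -(n : ℤ) := ⟨w.natAbs, by omega⟩
    rw [zpow_neg, zpow_neg, zpow_natCast, zpow_natCast]
    have : 0 < a / θ1 := by positivity
    gcongr

/-- the associated analytic function on the strip -/
noncomputable def f (c : ℤ → ℝ) (s : ℂ) : ℂ := ∑' w : ℤ, (c w : ℂ) * Complex.exp (w * s)

lemma norm_term (c : ℤ → ℝ) (h0 : ∀ w, 0 ≤ c w) (w : ℤ) (s : ℂ) :
    ‖(c w : ℂ) * Complex.exp (w * s)‖ = c w * (Real.exp s.re) ^ w := by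
  rw [norm_mul, Complex.norm_real, Real.norm_of_nonneg (h0 w), Complex.norm_exp]
  congr 1
  have : ((w : ℂ) * s).re = s.re * (w : ℝ) := by simp [mul_comm]
  rw [this, Real.exp_mul, Real.rpow_intCast]

lemma f_add (c : ℤ → ℝ) (s : ℂ) : f c (s + 2 * Real.pi * Complex.I) = f c s := by
  rw [f, f]
  congr 1
  funext w
  congr 1
  rw [mul_add, Complex.exp_add]
  have : Complex.exp ((w : ℂ) * (2 * Real.pi * Complex.I)) = 1 := by
    rw [Complex.exp_eq_one_iff]; exact ⟨w, rfl⟩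
  rw [this, mul_one]

/-- the open substrip -/
def strip (a b : ℝ) : Set ℂ := {s : ℂ | Real.log a < s.re ∧ s.re < Real.log b}

lemma isOpen_strip (a b : ℝ) : IsOpen (strip a b) :=
  (isOpen_lt continuous_const Complex.continuous_re).inter
    (isOpen_lt Complex.continuous_re continuous_const)

lemma isPreconnected_strip (a b : ℝ) : IsPreconnected (strip a b) := by
  apply Convex.isPreconnected
  exact (convex_halfSpace_re_gt _).inter (convex_halfSpace_re_lt _)

lemma differentiableOn_f {θ1 θ2 B a b : ℝ} {c : ℤ → ℝ} (h : Bdd θ1 θ2 B c) (h1 : 0 < θ1)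
    (h12 : θ1 < θ2) (hB : 0 ≤ B) (ha1 : θ1 < a) (hab : a < b) (hb2 : b < θ2) :
    DifferentiableOn ℂ (f c) (strip a b) := by
  have ha : 0 < a := h1.trans ha1
  have h2 : 0 < θ2 := h1.trans h12
  have hs : Summable fun w => B * bd (a / θ1) (b / θ2) w :=
    (summable_bd (by rwa [one_lt_div h1]) (by have := ha.trans hab; positivity)
      (by rwa [div_lt_one h2])).mul_left B
  refine Complex.differentiableOn_tsum_of_summable_norm hs ?_ (isOpen_strip a b) ?_
  · intro w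
    apply Differentiable.differentiableOn
    fun_prop
  · intro w s hs
    rw [norm_term c (fun w => (h w).1)]
    have e1 : a < Real.exp s.re := by
      rw [← Real.exp_log ha]; exact Real.exp_lt_exp.2 hs.1
    have e2 : Real.exp s.re < b := by
      rw [← Real.exp_log (ha.trans hab)]; exact Real.exp_lt_exp.2 hs.2
    exact h.le_bd' h1 h12 hB ha1 hb2 e1 e2 w

lemma f_real {c : ℤ → ℝ} {θ G : ℝ} (hθ : 0 < θ) (h : HasSum (fun w => c w * θ ^ w) G) :
    f c (Real.log θ) = (G : ℂ) := by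
  rw [f]
  have h2 : HasSum (fun w => ((c w * θ ^ w : ℝ) : ℂ)) (G : ℂ) := by
    exact_mod_cast (Complex.hasSum_ofReal.2 h)
  rw [← h2.tsum_eq]
  congr 1
  funext w
  push_cast
  congr 1
  rw [← Complex.ofReal_intCast, ← Complex.ofReal_mul, ← Complex.ofReal_exp,
    ← Complex.ofReal_zpow]
  congr 1
  rw [mul_comm, Real.exp_mul, Real.rpow_intCast, Real.exp_log hθ]

/-- Winding argument: two Laurent series cannot differ by a non-integer power on a set with an
accumulation point. -/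
lemma no_winding {θ1 θ2 B : ℝ} {c c' : ℤ → ℝ} (hc : Bdd θ1 θ2 B c) (hc' : Bdd θ1 θ2 B c')
    (h1 : 0 < θ1) (h12 : θ1 < θ2) (hB : 0 ≤ B) (δ : ℝ) (hδ : ∀ n : ℤ, δ ≠ n) (Z : Set ℝ)
    (D : ℝ → ℝ) (hD : ∀ θ ∈ Z, D θ ≠ 0)
    (hZ : ∀ θ ∈ Z, θ1 < θ → θ < θ2 → HasSum (fun w => c w * θ ^ w) (D θ) ∧
      HasSum (fun w => c' w * θ ^ w) (θ ^ δ * D θ))
    (θ0 : ℝ) (h01 : θ1 < θ0) (h02 : θ0 < θ2) (hacc : AccPt θ0 (𝓟 Z)) : False := by
  obtain ⟨a, ha1, ha0⟩ := exists_between h01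
  obtain ⟨b, hb0, hb2⟩ := exists_between h02
  have hab : a < b := ha0.trans hb0
  have ha : 0 < a := h1.trans ha1
  have h0 : 0 < θ0 := h1.trans h01
  set g : ℂ → ℂ := fun s => Complex.exp (δ * s) * f c s - f c' s with hg
  have hgd : DifferentiableOn ℂ g (strip a b) := by
    apply DifferentiableOn.sub
    · apply DifferentiableOn.mul
      · apply Differentiable.differentiableOn
        fun_prop
      · exact differentiableOn_f hc h1 h12 hB ha1 hab hb2
    · exact differentiableOn_f hc' h1 h12 hB ha1 hab hb2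
  have hga : AnalyticOnNhd ℂ g (strip a b) := hgd.analyticOnNhd (isOpen_strip a b)
  have hz : ∀ θ ∈ Z, a < θ → θ < b → g (Real.log θ) = 0 := by
    intro θ hθ hθa hθb
    have hθ0 : 0 < θ := ha.trans hθa
    obtain ⟨e1, e2⟩ := hZ θ hθ (ha1.trans hθa) (hθb.trans hb2)
    rw [hg]
    simp only
    rw [f_real hθ0 e1, f_real hθ0 e2, sub_eq_zero, Complex.ofReal_mul]
    congr 1
    rw [← Complex.ofReal_mul, ← Complex.ofReal_exp, Real.rpow_def_of_pos hθ0, mul_comm]
  have hmem : ∀ θ : ℝ, a < θ → θ < b → ((Real.log θ : ℝ) : ℂ) ∈ strip a b := by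
    intro θ h h'
    refine ⟨?_, ?_⟩
    · rw [Complex.ofReal_re]; exact Real.log_lt_log ha h
    · rw [Complex.ofReal_re]; exact Real.log_lt_log (ha.trans h) h'
  have hfreq : ∃ᶠ z in 𝓝[≠] ((Real.log θ0 : ℝ) : ℂ), g z = 0 := by
    have h3 : ∃ᶠ θ in 𝓝[≠] θ0, θ ∈ Z := accPt_iff_frequently_nhdsNE.1 hacc
    have h4 : ∃ᶠ θ in 𝓝[≠] θ0, g ((Real.log θ : ℝ) : ℂ) = 0 := by
      have h5 : ∀ᶠ θ in 𝓝[≠] θ0, a < θ ∧ θ < b := by
        apply eventually_nhdsWithin_of_eventually_nhds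
        exact (eventually_gt_nhds ha0).and (eventually_lt_nhds hb0)
      refine (h3.and_eventually h5).mono ?_
      rintro θ ⟨q1, q2, q3⟩
      exact hz θ q1 q2 q3
    have ht : Tendsto (fun θ : ℝ => ((Real.log θ : ℝ) : ℂ)) (𝓝[≠] θ0)
        (𝓝[≠] ((Real.log θ0 : ℝ) : ℂ)) := by
      apply tendsto_nhdsWithin_of_tendsto_nhds_of_eventually_within
      · have : ContinuousAt (fun θ : ℝ => ((Real.log θ : ℝ) : ℂ)) θ0 :=
          Complex.continuous_ofReal.continuousAt.comp (Real.continuousAt_log h0.ne')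
        exact this.tendsto.mono_left nhdsWithin_le_nhds
      · have h5 : ∀ᶠ θ in 𝓝[≠] θ0, 0 < θ := by
          apply eventually_nhdsWithin_of_eventually_nhds
          exact eventually_gt_nhds h0
        filter_upwards [h5, self_mem_nhdsWithin] with θ q1 q2
        intro q3
        apply q2
        rw [Set.mem_singleton_iff] at q3 ⊢
        have : Real.log θ = Real.log θ0 := by exact_mod_cast q3
        exact Real.log_injOn_pos (Set.mem_Ioi.2 q1) (Set.mem_Ioi.2 h0) this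
    exact ht.frequently h4
  have hzero := hga.eqOn_zero_of_preconnected_of_frequently_eq_zero (isPreconnected_strip a b)
    (hmem θ0 ha0 hb0) hfreq
  -- a point of `Z` in `(a,b)`
  obtain ⟨θ, hθZ, hθa, hθb⟩ : ∃ θ ∈ Z, a < θ ∧ θ < b := by
    have h3 : ∃ᶠ θ in 𝓝[≠] θ0, θ ∈ Z := accPt_iff_frequently_nhdsNE.1 hacc
    have h5 : ∀ᶠ θ in 𝓝[≠] θ0, a < θ ∧ θ < b := by
      apply eventually_nhdsWithin_of_eventually_nhds
      exact (eventually_gt_nhds ha0).and (eventually_lt_nhds hb0)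
    obtain ⟨θ, q1, q2⟩ := (h3.and_eventually h5).exists
    exact ⟨θ, q1, q2⟩
  set s : ℂ := ((Real.log θ : ℝ) : ℂ) with hs
  have hs1 : s ∈ strip a b := hmem θ hθa hθb
  have hs2 : s + 2 * Real.pi * Complex.I ∈ strip a b := by
    have : (s + 2 * Real.pi * Complex.I).re = s.re := by simp
    exact ⟨by rw [this]; exact hs1.1, by rw [this]; exact hs1.2⟩
  have e1 : g s = 0 := hzero hs1
  have e2 : g (s + 2 * Real.pi * Complex.I) = 0 := hzero hs2
  rw [hg] at e1 e2
  simp only [f_add] at e1 e2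
  have e3 : (Complex.exp (δ * (s + 2 * Real.pi * Complex.I)) - Complex.exp (δ * s)) * f c s = 0 := by
    linear_combination e2 - e1
  have e4 : f c s ≠ 0 := by
    obtain ⟨q1, _⟩ := hZ θ hθZ (ha1.trans hθa) (hθb.trans hb2)
    rw [hs, f_real (ha.trans hθa) q1]
    exact_mod_cast hD θ hθZ
  have e5 : Complex.exp (δ * (s + 2 * Real.pi * Complex.I)) = Complex.exp (δ * s) := by
    have := (mul_eq_zero.1 e3).resolve_right e4
    exact sub_eq_zero.1 this
  rw [Complex.exp_eq_exp_iff_exists_int] at e5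
  obtain ⟨n, hn⟩ := e5
  have e6 : (δ : ℂ) * (2 * Real.pi * Complex.I) = n * (2 * Real.pi * Complex.I) := by
    linear_combination hn
  have e7 : (δ : ℂ) = n := by
    have : (2 * Real.pi * Complex.I : ℂ) ≠ 0 := by
      simp [Real.pi_ne_zero]
    exact mul_right_cancel₀ this e6
  exact hδ n (by exact_mod_cast e7)

end Pool.Agent.Lib.MP_134bf7_pr.Winding
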